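import Pool.Agent.Q74.BT.Stm

/-!
# Project BT: the lowest level at times `≤ C log L`

`S_Bot` of `Pool.Agent.Q74.BT.Stm`.
-/

set_option autoImplicit false

namespace Pool.Agent.Q38.BT

open Finset
open Pool.Agent.Q158.Pair (T T_even T_odd)
open Pool.Agent.Q74.AR (oc bE bE_succ bE_mul bE_mono bE_zero)
open Pool.Agent.Q74.KP (EE EE_sum EE_mono oc_last oc_add)
open Pool.Agent.Q74.BL (nx EE_split EE_congr EE_oc)
open Pool.Agent.Q74.BT

/-! ### Hoeffding -/

theorem bE_pow (r : ℕ) (z : ℝ) : bE r (fun m => z ^ m) = ((1 + z) / 2) ^ r := by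
  induction r with
  | zero => rw [bE_zero, pow_zero, pow_zero]
  | succ r ih =>
    rw [bE_succ, ih]
    have e : (fun k : ℕ => z ^ (k + 1)) = fun k => z * z ^ k := by
      funext k
      rw [pow_succ]
      ring
    rw [e, bE_mul, ih, pow_succ]
    ring

theorem cosh_eq' (s : ℝ) : Real.cosh (s / 2) = Real.exp (s / 2) * ((1 + Real.exp (-s)) / 2) := by
  have h : Real.exp (s / 2) * Real.exp (-s) = Real.exp (-(s / 2)) := by
    rw [← Real.exp_add]
    congr 1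
    ring
  rw [Real.cosh_eq]
  linear_combination (-1 / 2 : ℝ) * h

theorem bE_exp (r : ℕ) (s h : ℝ) :
    bE r (fun m => Real.exp (s * ((r : ℝ) / 2 - h - m))) ≤ Real.exp (-(s * h) + s ^ 2 * r / 8) := by
  have e1 : (fun m : ℕ => Real.exp (s * ((r : ℝ) / 2 - h - m))) =
      fun m => Real.exp (s * ((r : ℝ) / 2 - h)) * (Real.exp (-s)) ^ m := by
    funext m
    rw [← Real.exp_nat_mul, ← Real.exp_add]
    congr 1
    ring
  have e2 : Real.exp (s * ((r : ℝ) / 2 - h)) * ((1 + Real.exp (-s)) / 2) ^ r =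
      Real.exp (-(s * h)) * Real.cosh (s / 2) ^ r := by
    rw [cosh_eq', mul_pow, ← Real.exp_nat_mul, ← mul_assoc, ← Real.exp_add]
    congr 2
    ring
  rw [e1, bE_mul, bE_pow, e2]
  have h1 : Real.cosh (s / 2) ^ r ≤ Real.exp ((s / 2) ^ 2 / 2) ^ r :=
    pow_le_pow_left₀ (Real.cosh_pos _).le (Real.cosh_le_exp_half_sq _) r
  have h2 : Real.exp (-(s * h)) * Real.exp ((s / 2) ^ 2 / 2) ^ r =
      Real.exp (-(s * h) + s ^ 2 * r / 8) := by
    rw [← Real.exp_nat_mul, ← Real.exp_add]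
    congr 1
    ring
  rw [← h2]
  exact mul_le_mul_of_nonneg_left h1 (Real.exp_pos _).le

/-! ### the deviation of one trajectory -/

/-- the deviation -/
noncomputable def wv (x y : ℤ) (i : ℕ) : ℝ := ((T^[i] y : ℤ) : ℝ) - 3 ^ oc i y * x / 2 ^ i

theorem wv_step (x y : ℤ) (i : ℕ) :
    (oc (i + 1) y = oc i y ∧ wv x y (i + 1) = wv x y i / 2) ∨
      (oc (i + 1) y = oc i y + 1 ∧ wv x y (i + 1) = (3 * wv x y i + 1) / 2) := by
  have h := oc_last i y
  obtain ⟨m, hm | hm⟩ := Int.even_or_odd' (T^[i] y)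
  · left
    have h1 : oc (i + 1) y = oc i y := by
      rw [hm, if_neg (by omega)] at h
      omega
    refine ⟨h1, ?_⟩
    unfold wv
    rw [h1, Function.iterate_succ_apply', hm, T_even, pow_succ]
    push_cast
    field_simp
  · right
    have h1 : oc (i + 1) y = oc i y + 1 := by
      rw [hm, if_pos (by omega)] at h
      omega
    refine ⟨h1, ?_⟩
    unfold wv
    rw [h1, Function.iterate_succ_apply', hm, T_odd, pow_succ (2 : ℝ), pow_succ (3 : ℝ)]
    push_cast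
    field_simp
    ring

theorem wv_zero (x : ℤ) (j : ℕ) : wv x (x + j) 0 = j := by
  unfold wv
  rw [Function.iterate_zero, id_eq]
  simp [oc]

theorem wv_nonneg (x : ℤ) (j : ℕ) (i : ℕ) : 0 ≤ wv x (x + j) i := by
  induction i with
  | zero =>
    rw [wv_zero]
    exact Nat.cast_nonneg j
  | succ i ih =>
    rcases wv_step x (x + j) i with ⟨-, h⟩ | ⟨-, h⟩ <;> rw [h] <;> linarith

theorem wv_grow (X : ℕ) (hX : 1 ≤ X) (x : ℤ) (j : ℕ) (u : ℕ)
    (h : ∀ i < u, (X : ℝ) ≤ wv x (x + j) i) :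
    (wv x (x + j) u + 1) * 2 ^ u ≤ (j + 1) * (1 + 1 / X) ^ u * 3 ^ oc u (x + j) := by
  have hX0 : (0 : ℝ) < X := by exact_mod_cast hX
  induction u with
  | zero =>
    rw [wv_zero]
    simp [oc]
  | succ u ih =>
    have ih' := ih fun i hi => h i (by omega)
    have hw := h u (by omega)
    have hA : (0 : ℝ) ≤ (j + 1) * (1 + 1 / X) ^ u * 3 ^ oc u (x + j) := by positivity
    have hq : (1 : ℝ) ≤ 1 + 1 / X := by
      have : (0 : ℝ) < 1 / X := by positivity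
      linarith
    rcases wv_step x (x + j) u with ⟨h1, h2⟩ | ⟨h1, h2⟩
    · rw [h1, h2]
      have h3 : (wv x (x + j) u / 2 + 1) * 2 ≤ (wv x (x + j) u + 1) * (1 + 1 / X) := by
        have h4 : 1 ≤ (wv x (x + j) u + 1) * (1 / X) := by
          rw [mul_one_div, le_div_iff₀ hX0]
          linarith
        linarith
      calc (wv x (x + j) u / 2 + 1) * 2 ^ (u + 1)
          = (wv x (x + j) u / 2 + 1) * 2 * 2 ^ u := by rw [pow_succ]; ring
        _ ≤ (wv x (x + j) u + 1) * (1 + 1 / X) * 2 ^ u :=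
            mul_le_mul_of_nonneg_right h3 (by positivity)
        _ = (wv x (x + j) u + 1) * 2 ^ u * (1 + 1 / X) := by ring
        _ ≤ (j + 1) * (1 + 1 / X) ^ u * 3 ^ oc u (x + j) * (1 + 1 / X) :=
            mul_le_mul_of_nonneg_right ih' (by linarith)
        _ = (j + 1) * (1 + 1 / X) ^ (u + 1) * 3 ^ oc u (x + j) := by rw [pow_succ]; ring
    · rw [h1, h2]
      calc ((3 * wv x (x + j) u + 1) / 2 + 1) * 2 ^ (u + 1)
          = 3 * ((wv x (x + j) u + 1) * 2 ^ u) := by rw [pow_succ]; ring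
        _ ≤ 3 * ((j + 1) * (1 + 1 / X) ^ u * 3 ^ oc u (x + j)) := by linarith
        _ ≤ 3 * ((j + 1) * (1 + 1 / X) ^ u * 3 ^ oc u (x + j)) * (1 + 1 / X) :=
            le_mul_of_one_le_right (by positivity) hq
        _ = (j + 1) * (1 + 1 / X) ^ (u + 1) * 3 ^ (oc u (x + j) + 1) := by
            rw [pow_succ, pow_succ]; ring

/-- the first time with a small deviation -/
theorem first (X L : ℕ) (hX : 1 ≤ X) (x : ℤ) (j : ℕ) (hj : j < L) (t : ℕ) :
    ∃ u ≤ t, (u = t ∨ wv x (x + j) u ≤ X) ∧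
      (u : ℝ) * Real.log 2 ≤ Real.log L + u / X + oc u (x + j) * Real.log 3 := by
  classical
  have hX0 : (0 : ℝ) < X := by exact_mod_cast hX
  have hex : ∃ u, u = t ∨ wv x (x + j) u < X := ⟨t, Or.inl rfl⟩
  have h1 := Nat.find_spec hex
  have h2 : Nat.find hex ≤ t := Nat.find_min' hex (Or.inl rfl)
  have h3 : ∀ i < Nat.find hex, (X : ℝ) ≤ wv x (x + j) i := by
    intro i hi
    have := Nat.find_min hex hi
    push Not at this
    exact this.2
  generalize Nat.find hex = u at h1 h2 h3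
  refine ⟨u, h2, h1.imp id fun h => h.le, ?_⟩
  have h4 := wv_grow X hX x j u h3
  have h5 := wv_nonneg x j u
  have hL : (0 : ℝ) < L := by
    have : 0 < L := by omega
    exact_mod_cast this
  have hjL : (j : ℝ) + 1 ≤ L := by exact_mod_cast hj
  have h6 : (2 : ℝ) ^ u ≤ L * (1 + 1 / X) ^ u * 3 ^ oc u (x + j) := by
    calc (2 : ℝ) ^ u = 1 * 2 ^ u := by ring
      _ ≤ (wv x (x + j) u + 1) * 2 ^ u := mul_le_mul_of_nonneg_right (by linarith) (by positivity)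
      _ ≤ (j + 1) * (1 + 1 / X) ^ u * 3 ^ oc u (x + j) := h4
      _ ≤ L * (1 + 1 / X) ^ u * 3 ^ oc u (x + j) := by gcongr
  have h7 := Real.log_le_log (by positivity) h6
  have hq : (0 : ℝ) < 1 + 1 / X := by positivity
  rw [Real.log_pow, Real.log_mul (by positivity) (by positivity),
    Real.log_mul hL.ne' (by positivity), Real.log_pow, Real.log_pow] at h7
  have h8 : Real.log (1 + 1 / (X : ℝ)) ≤ 1 / X := by
    have := Real.log_le_sub_one_of_pos hq
    linarith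
  have h9 : (u : ℝ) * Real.log (1 + 1 / (X : ℝ)) ≤ u / X := by
    calc (u : ℝ) * Real.log (1 + 1 / (X : ℝ)) ≤ u * (1 / X) :=
          mul_le_mul_of_nonneg_left h8 (Nat.cast_nonneg u)
      _ = u / X := by ring
  linarith

/-! ### the union bound -/

/-- the terms of the union bound -/
noncomputable def GG (φ : ℕ → ℝ) (X t u : ℕ) (x : ℤ) : ℝ :=
  ∑ a ∈ range (u + 1), ∑ k ∈ range (X + 1), φ (oc (t - u) (3 ^ a * (x / 2 ^ u) +
    (⌈(3 : ℝ) ^ a * (((x % 2 ^ u : ℤ) : ℝ) / 2 ^ u)⌉ + k)))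

theorem GG_mean (φ : ℕ → ℝ) (X t u : ℕ) (hu : u ≤ t) :
    EE t (GG φ X t u) = ((u + 1 : ℕ) : ℝ) * (((X + 1 : ℕ) : ℝ) * bE (t - u) φ) := by
  have ht : t = u + (t - u) := by omega
  have e0 : EE t (GG φ X t u) = EE (u + (t - u)) (GG φ X t u) := by rw [← ht]
  rw [e0, EE_split]
  have e1 : ∀ i : ℕ, i < 2 ^ u → EE (t - u) (fun x' => GG φ X t u (2 ^ u * x' + (i : ℤ))) =
      ((u + 1 : ℕ) : ℝ) * (((X + 1 : ℕ) : ℝ) * bE (t - u) φ) := by
    intro i hi
    have hi' : (i : ℤ) < 2 ^ u := by exact_mod_cast hi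
    have d1 : ∀ x' : ℤ, (2 ^ u * x' + (i : ℤ)) / 2 ^ u = x' := by
      intro x'
      rw [Int.add_comm, Int.add_mul_ediv_left _ _ (by positivity),
        Int.ediv_eq_zero_of_lt (by positivity) hi', zero_add]
    have d2 : ∀ x' : ℤ, (2 ^ u * x' + (i : ℤ)) % 2 ^ u = i := by
      intro x'
      rw [Int.add_comm, Int.add_mul_emod_self_left, Int.emod_eq_of_lt (by positivity) hi']
    have e2 : (fun x' : ℤ => GG φ X t u (2 ^ u * x' + (i : ℤ))) = fun x' : ℤ =>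
        ∑ a ∈ range (u + 1), ∑ k ∈ range (X + 1), φ (oc (t - u) (3 ^ a * x' +
          (⌈(3 : ℝ) ^ a * (((i : ℤ) : ℝ) / 2 ^ u)⌉ + k))) := by
      funext x'
      unfold GG
      rw [d1, d2]
    rw [e2, EE_sum]
    have e3 : ∀ a ∈ range (u + 1), EE (t - u) (fun x' : ℤ => ∑ k ∈ range (X + 1),
        φ (oc (t - u) (3 ^ a * x' + (⌈(3 : ℝ) ^ a * (((i : ℤ) : ℝ) / 2 ^ u)⌉ + k)))) =
        ((X + 1 : ℕ) : ℝ) * bE (t - u) φ := by
      intro a _
      rw [EE_sum]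
      have e4 : ∀ k ∈ range (X + 1), EE (t - u) (fun x' : ℤ =>
          φ (oc (t - u) (3 ^ a * x' + (⌈(3 : ℝ) ^ a * (((i : ℤ) : ℝ) / 2 ^ u)⌉ + k)))) =
          bE (t - u) φ := fun k _ => EE_oc (t - u) φ a _
      rw [Finset.sum_congr rfl e4, Finset.sum_const, card_range, nsmul_eq_mul]
    rw [Finset.sum_congr rfl e3, Finset.sum_const, card_range, nsmul_eq_mul]
  rw [EE_congr (G := fun _ => ((u + 1 : ℕ) : ℝ) * (((X + 1 : ℕ) : ℝ) * bE (t - u) φ)) e1,
    Pool.Agent.Q74.KP.EE_const]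

theorem GG_nonneg {φ : ℕ → ℝ} (hφ : ∀ m, 0 ≤ φ m) (X t u : ℕ) (x : ℤ) : 0 ≤ GG φ X t u x :=
  sum_nonneg fun _ _ => sum_nonneg fun _ _ => hφ _

theorem GG_ge {φ : ℕ → ℝ} (hφ : ∀ m, 0 ≤ φ m) (X t u : ℕ) (hu : u ≤ t) (x : ℤ) (j : ℕ)
    (hw : wv x (x + j) u ≤ X) :
    φ (oc (t - u) (T^[u] (x + j))) ≤ GG φ X t u x := by
  set a := oc u (x + (j : ℤ)) with ha
  set b : ℤ := T^[u] (x + j) - 3 ^ a * (x / 2 ^ u) with hb
  have h2 : (0 : ℝ) < 2 ^ u := by positivity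
  have hdm : (x : ℝ) = 2 ^ u * ((x / 2 ^ u : ℤ) : ℝ) + ((x % 2 ^ u : ℤ) : ℝ) := by
    have := Int.mul_ediv_add_emod x (2 ^ u)
    exact_mod_cast this.symm
  have hbr : (b : ℝ) = wv x (x + j) u + 3 ^ a * (((x % 2 ^ u : ℤ) : ℝ) / 2 ^ u) := by
    rw [hb]
    unfold wv
    rw [← ha]
    push_cast
    rw [hdm]
    field_simp
    push_cast
    ring
  have h0 := wv_nonneg x j u
  have hc1 : ⌈(3 : ℝ) ^ a * (((x % 2 ^ u : ℤ) : ℝ) / 2 ^ u)⌉ ≤ b := by
    rw [Int.ceil_le, hbr]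
    linarith
  have hc2 : b ≤ ⌈(3 : ℝ) ^ a * (((x % 2 ^ u : ℤ) : ℝ) / 2 ^ u)⌉ + X := by
    have h3 := Int.le_ceil ((3 : ℝ) ^ a * (((x % 2 ^ u : ℤ) : ℝ) / 2 ^ u))
    have h4 : (b : ℝ) ≤ ((⌈(3 : ℝ) ^ a * (((x % 2 ^ u : ℤ) : ℝ) / 2 ^ u)⌉ + X : ℤ) : ℝ) := by
      rw [hbr]
      push_cast
      linarith
    exact_mod_cast h4
  obtain ⟨k, hk⟩ : ∃ k : ℕ, b = ⌈(3 : ℝ) ^ a * (((x % 2 ^ u : ℤ) : ℝ) / 2 ^ u)⌉ + k :=
    ⟨(b - ⌈(3 : ℝ) ^ a * (((x % 2 ^ u : ℤ) : ℝ) / 2 ^ u)⌉).toNat, by omega⟩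
  have hkX : k ∈ range (X + 1) := by
    rw [mem_range]
    omega
  have haR : a ∈ range (u + 1) := by
    rw [mem_range]
    have := Pool.Agent.Q74.AR.oc_le u (x + (j : ℤ))
    omega
  have hT : T^[u] (x + j) = 3 ^ a * (x / 2 ^ u) +
      (⌈(3 : ℝ) ^ a * (((x % 2 ^ u : ℤ) : ℝ) / 2 ^ u)⌉ + k) := by
    rw [← hk, hb]
    ring
  rw [hT]
  unfold GG
  refine le_trans ?_ (single_le_sum (f := fun a => ∑ k ∈ range (X + 1), φ (oc (t - u)
    (3 ^ a * (x / 2 ^ u) + (⌈(3 : ℝ) ^ a * (((x % 2 ^ u : ℤ) : ℝ) / 2 ^ u)⌉ + k))))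
    (fun _ _ => sum_nonneg fun _ _ => hφ _) haR)
  exact single_le_sum (f := fun k : ℕ => φ (oc (t - u)
    (3 ^ a * (x / 2 ^ u) + (⌈(3 : ℝ) ^ a * (((x % 2 ^ u : ℤ) : ℝ) / 2 ^ u)⌉ + k))))
    (fun _ _ => hφ _) hkX

theorem log32 : Real.log 3 ≤ 2 * Real.log 2 := by
  have h : Real.log 4 = 2 * Real.log 2 := by
    rw [show (4 : ℝ) = 2 ^ 2 by norm_num, Real.log_pow]
    push_cast
    ring
  rw [← h]
  exact Real.log_le_log (by norm_num) (by norm_num)

/-- **Bot** -/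
theorem bot : S_Bot := by
  classical
  intro C ε hC hε
  have l2 : 0 < Real.log 2 := Real.log_pos (by norm_num)
  -- the constants
  obtain ⟨X, hX1, hX⟩ : ∃ X : ℕ, 1 ≤ X ∧ C / X ≤ ε * Real.log 2 / 2 := by
    obtain ⟨n, hn⟩ := exists_nat_ge (C / (ε * Real.log 2 / 2))
    refine ⟨n + 1, by omega, ?_⟩
    rw [div_le_iff₀ (by positivity)]
    rw [div_le_iff₀ (by positivity)] at hn
    push_cast
    nlinarith
  have hX0 : (0 : ℝ) < X := by exact_mod_cast hX1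
  set s : ℝ := 3 * ε / C with hs
  have hs0 : 0 < s := by positivity
  set c : ℝ := 9 * ε ^ 2 / (8 * C) with hc
  have hc0 : 0 < c := by positivity
  obtain ⟨L₀, hL₀⟩ := exists_nat_ge (Real.exp (6 * C ^ 2 * (X + 1) / (c ^ 3 * ε)))
  refine ⟨max L₀ 2, fun L hL t ht => ?_⟩
  have hL2 : 2 ≤ L := (le_max_right _ _).trans hL
  have hLr : (1 : ℝ) < L := by exact_mod_cast (by omega : 1 < L)
  set ℓ := Real.log L with hℓ
  have hℓ0 : 0 < ℓ := Real.log_pos hLr
  have hℓ1 : 6 * C ^ 2 * (X + 1) / (c ^ 3 * ε) ≤ ℓ := by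
    have h1 : Real.exp (6 * C ^ 2 * (X + 1) / (c ^ 3 * ε)) ≤ L :=
      hL₀.trans (by exact_mod_cast (le_max_left _ _).trans hL)
    have h2 := Real.log_le_log (Real.exp_pos _) h1
    rwa [Real.log_exp] at h2
  set h : ℝ := 3 * ε / 4 * ℓ with hh
  -- the pointwise bound
  have key : ∀ x : ℤ, Set.indicator {x : ℤ | ∃ z ∈ VV L t x,
      (z.1 : ℝ) < t / 2 - (1 / (2 * Real.log 2) + ε) * ℓ} (1 : ℤ → ℝ) x ≤
      ∑ u ∈ range t, GG (fun m => Real.exp (s * (((t - u : ℕ) : ℝ) / 2 - h - m))) X t u x := by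
    intro x
    have hpos : 0 ≤ ∑ u ∈ range t,
        GG (fun m => Real.exp (s * (((t - u : ℕ) : ℝ) / 2 - h - m))) X t u x :=
      sum_nonneg fun u _ => GG_nonneg (fun m => (Real.exp_pos _).le) X t u x
    rw [Set.indicator_apply]
    split_ifs with hx
    swap
    · exact hpos
    obtain ⟨z, hz, hzl⟩ := hx
    unfold VV at hz
    rw [mem_image] at hz
    obtain ⟨j, hj, rfl⟩ := hz
    rw [mem_range] at hj
    have e1 : (nx t x (0, (j : ℤ))).1 = oc t (x + j) := by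
      unfold nx
      rw [pow_zero, one_mul, zero_add]
    rw [e1] at hzl
    obtain ⟨u, hut, hu1, hu2⟩ := first X L hX1 x j hj t
    rw [← hℓ] at hu2
    have hau : (u : ℝ) / 2 - (1 / (2 * Real.log 2) + ε / 4) * ℓ ≤ oc u (x + j) := by
      have huC : (u : ℝ) / X ≤ ε * Real.log 2 / 2 * ℓ := by
        calc (u : ℝ) / X ≤ C * ℓ / X := by
              refine div_le_div_of_nonneg_right ?_ hX0.le
              exact (by exact_mod_cast hut : (u : ℝ) ≤ t).trans ht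
          _ = C / X * ℓ := by ring
          _ ≤ ε * Real.log 2 / 2 * ℓ := mul_le_mul_of_nonneg_right hX hℓ0.le
      have h3 : (oc u (x + j) : ℝ) * Real.log 3 ≤ oc u (x + j) * (2 * Real.log 2) :=
        mul_le_mul_of_nonneg_left log32 (Nat.cast_nonneg _)
      have h4 : (u : ℝ) * Real.log 2 ≤ ℓ + ε * Real.log 2 / 2 * ℓ +
          oc u (x + j) * (2 * Real.log 2) := by linarith
      have h5 : ((u : ℝ) / 2 - (1 / (2 * Real.log 2) + ε / 4) * ℓ) * (2 * Real.log 2) ≤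
          oc u (x + j) * (2 * Real.log 2) := by
        have e2 : ((u : ℝ) / 2 - (1 / (2 * Real.log 2) + ε / 4) * ℓ) * (2 * Real.log 2) =
            u * Real.log 2 - ℓ - ε * Real.log 2 / 2 * ℓ := by
          field_simp
          ring
        rw [e2]
        linarith
      exact le_of_mul_le_mul_right h5 (by positivity)
    have hne : u ≠ t := by
      rintro rfl
      have : 0 < ε * ℓ := by positivity
      linarith
    have hw : wv x (x + j) u ≤ X := hu1.resolve_left hne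
    have hult : u < t := lt_of_le_of_ne hut hne
    have hoc : oc t (x + j) = oc u (x + j) + oc (t - u) (T^[u] (x + j)) := by
      have := oc_add u (t - u) (x + (j : ℤ))
      rwa [show u + (t - u) = t by omega] at this
    have hlow : ((oc (t - u) (T^[u] (x + j)) : ℕ) : ℝ) ≤ ((t - u : ℕ) : ℝ) / 2 - h := by
      rw [hoc] at hzl
      push_cast at hzl
      rw [Nat.cast_sub hut, hh]
      linarith
    refine le_trans ?_ (single_le_sum (f := fun u =>
      GG (fun m => Real.exp (s * (((t - u : ℕ) : ℝ) / 2 - h - m))) X t u x)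
      (fun u _ => GG_nonneg (fun m => (Real.exp_pos _).le) X t u x) (mem_range.2 hult))
    refine le_trans ?_ (GG_ge (fun m => (Real.exp_pos _).le) X t u hut x j hw)
    rw [Pi.one_apply]
    apply Real.one_le_exp
    exact mul_nonneg hs0.le (by linarith)
  refine (EE_mono t key).trans ?_
  rw [EE_sum]
  -- the mean
  have hterm : ∀ u ∈ range t,
      EE t (GG (fun m => Real.exp (s * (((t - u : ℕ) : ℝ) / 2 - h - m))) X t u) ≤
      (t : ℝ) * ((X + 1) * Real.exp (-(c * ℓ))) := by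
    intro u hu
    rw [mem_range] at hu
    rw [GG_mean _ X t u hu.le]
    have h1 : bE (t - u) (fun m => Real.exp (s * (((t - u : ℕ) : ℝ) / 2 - h - m))) ≤
        Real.exp (-(c * ℓ)) := by
      refine (bE_exp (t - u) s h).trans (Real.exp_le_exp.2 ?_)
      have h2 : ((t - u : ℕ) : ℝ) ≤ C * ℓ := by
        refine le_trans ?_ ht
        exact_mod_cast Nat.sub_le t u
      have h3 : s ^ 2 * ((t - u : ℕ) : ℝ) ≤ s ^ 2 * (C * ℓ) :=
        mul_le_mul_of_nonneg_left h2 (by positivity)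
      have h4 : -(s * h) + s ^ 2 * (C * ℓ) / 8 = -(c * ℓ) := by
        rw [hs, hh, hc]
        field_simp
        ring
      linarith
    have h5 : ((u + 1 : ℕ) : ℝ) ≤ t := by exact_mod_cast hu
    push_cast at h5 ⊢
    have h6 : (0 : ℝ) ≤ Real.exp (-(c * ℓ)) := (Real.exp_pos _).le
    calc ((u : ℝ) + 1) * (((X : ℝ) + 1) * bE (t - u)
          (fun m => Real.exp (s * (((t - u : ℕ) : ℝ) / 2 - h - m))))
        ≤ ((u : ℝ) + 1) * (((X : ℝ) + 1) * Real.exp (-(c * ℓ))) := by gcongr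
      _ ≤ t * (((X : ℝ) + 1) * Real.exp (-(c * ℓ))) := by gcongr
  refine (Finset.sum_le_sum hterm).trans ?_
  rw [Finset.sum_const, card_range, nsmul_eq_mul]
  -- the final estimate
  have h1 : (c * ℓ) ^ 3 / 6 ≤ Real.exp (c * ℓ) := by
    have := Real.pow_div_factorial_le_exp (c * ℓ) (by positivity) 3
    simpa [Nat.factorial] using this
  have h2 : Real.exp (-(c * ℓ)) ≤ 6 / (c * ℓ) ^ 3 := by
    rw [Real.exp_neg, inv_eq_one_div, div_le_div_iff₀ (Real.exp_pos _) (by positivity)]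
    linarith
  have h3 : (t : ℝ) * (t * ((X + 1) * Real.exp (-(c * ℓ)))) ≤
      (C * ℓ) * ((C * ℓ) * ((X + 1) * (6 / (c * ℓ) ^ 3))) := by
    have ht0 : (0 : ℝ) ≤ t := Nat.cast_nonneg t
    gcongr
  refine h3.trans ?_
  have h4 : (C * ℓ) * ((C * ℓ) * ((X + 1) * (6 / (c * ℓ) ^ 3))) =
      6 * C ^ 2 * (X + 1) / (c ^ 3 * ε) * ε / ℓ := by
    field_simp
  rw [h4, div_le_iff₀ hℓ0]
  nlinarith

end Pool.Agent.Q38.BT
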