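import Pool.Agent.Q38.BT.Bot
import Pool.Agent.Q74.AR.Cnt
import Pool.Agent.Q74.AR.Td

/-!
# Project BT: lower bound for the probability that the block has not merged

`S_Lo` of `Pool.Agent.Q74.BT.Stm`.
-/

set_option autoImplicit false

namespace Pool.Agent.Q38.BT

open Finset Filter Topology
open Pool.Agent.Q158.Pair (T T_even T_odd surv)
open Pool.Agent.Q74.AR (oc bE bE_succ bE_mul bE_mono bE_zero lim Phi Phi_zero Phi_mono Phi_le_one
  Phi_lip' Phi_top surv_lower meet_count oc_per)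
open Pool.Agent.Q74.KP (EE EE_sum EE_mono EE_mul EE_sub EE_const oc_last oc_add Erf three_odd)
open Pool.Agent.Q74.BL (nx EE_split EE_congr EE_oc cl cn sum_classes cn_ge T_add oc_pow_even
  T_pow_even)
open Pool.Agent.Q74.BT
open Pool.Agent.H395R2.G3 (rr FF rate rr_spec)

/-! ### the error function -/

theorem Erf_eq (x : ℝ) : Erf x = 2 * Phi (√2 * x) - 1 := by
  have h2 : (0 : ℝ) < √2 := by positivity
  have h1 := Pool.Agent.Q296.AR.Phi_sub 0 (√2 * x)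
  rw [Phi_zero] at h1
  have h3 := intervalIntegral.mul_integral_comp_mul_left (f := Pool.Agent.Q296.AR.phi) (a := 0)
    (b := x) (c := √2)
  rw [mul_zero] at h3
  rw [← h3] at h1
  have h4 : ∀ x : ℝ, Pool.Agent.Q296.AR.phi (√2 * x) =
      (√2)⁻¹ * ((√Real.pi)⁻¹ * Real.exp (-x ^ 2)) := by
    intro x
    unfold Pool.Agent.Q296.AR.phi
    rw [mul_pow, Real.sq_sqrt (by norm_num), Real.sqrt_mul (by norm_num)]
    have : -(2 * x ^ 2) / 2 = -x ^ 2 := by ring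
    rw [this]
    field_simp
  simp only [h4] at h1
  rw [intervalIntegral.integral_const_mul, intervalIntegral.integral_const_mul] at h1
  have h5 : √2 * ((√2)⁻¹ * ((√Real.pi)⁻¹ * ∫ x in (0 : ℝ)..x, Real.exp (-x ^ 2))) =
      (√Real.pi)⁻¹ * ∫ x in (0 : ℝ)..x, Real.exp (-x ^ 2) := by
    rw [← mul_assoc, mul_inv_cancel₀ h2.ne', one_mul]
  rw [h5] at h1
  unfold Erf
  have h6 : 2 / √Real.pi * ∫ x in (0 : ℝ)..x, Real.exp (-x ^ 2) =
      2 * ((√Real.pi)⁻¹ * ∫ x in (0 : ℝ)..x, Real.exp (-x ^ 2)) := by ring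
  rw [h6, ← h1]
  ring

theorem Erf_mono : Monotone Erf := by
  intro x y h
  rw [Erf_eq, Erf_eq]
  have := Phi_mono (mul_le_mul_of_nonneg_left h (by positivity : (0 : ℝ) ≤ √2))
  linarith

theorem Erf_le_one (x : ℝ) : Erf x ≤ 1 := by
  rw [Erf_eq]
  have := Phi_le_one (√2 * x)
  linarith

theorem Erf_zero : Erf 0 = 0 := by
  rw [Erf_eq, mul_zero, Phi_zero]
  norm_num

theorem Erf_lip {x y : ℝ} (h : x ≤ y) : Erf y - Erf x ≤ 3 * (y - x) := by
  rw [Erf_eq, Erf_eq]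
  have h2 : √2 ≤ 3 / 2 := by
    rw [Real.sqrt_le_left (by norm_num)]
    norm_num
  have h1 := Phi_lip' (mul_le_mul_of_nonneg_left h (by positivity : (0 : ℝ) ≤ √2))
  nlinarith

theorem Erf_big {ε : ℝ} (hε : 0 < ε) : ∃ R : ℝ, 0 < R ∧ 1 - ε ≤ Erf R := by
  have h1 := (tendsto_order.1 Phi_top).1 (1 - ε / 2) (by linarith)
  obtain ⟨R, hR⟩ := (h1.and (eventually_gt_atTop 0)).exists
  refine ⟨R, hR.2, ?_⟩
  rw [Erf_eq]
  have h2 : (1 : ℝ) ≤ √2 := by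
    rw [Real.one_le_sqrt]
    norm_num
  have h3 : R ≤ √2 * R := by nlinarith [hR.2]
  have h4 := Phi_mono h3
  linarith [hR.1]

theorem lim_eq (t a : ℕ) : lim t a = Erf (a / √(t : ℝ)) := Pool.Agent.Q74.AR.lim_erf t a

/-! ### the number of values -/

theorem Vn_mono {L L' : ℕ} (h : L ≤ L') (t : ℕ) (n : ℤ) : Vn L t n ≤ Vn L' t n := by
  unfold Vn
  refine card_le_card (image_subset_image fun j hj => ?_)
  rw [mem_range] at hj ⊢
  omega

theorem Vn_two {L t : ℕ} {n : ℤ} {j₁ j₂ : ℕ} (h₁ : j₁ < L) (h₂ : j₂ < L)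
    (h : T^[t] (n + j₁) ≠ T^[t] (n + j₂)) : 2 ≤ Vn L t n := by
  unfold Vn
  have : 1 < ((range L).image (fun j : ℕ => T^[t] (n + j))).card := by
    rw [Finset.one_lt_card]
    exact ⟨_, mem_image_of_mem _ (mem_range.2 h₁), _, mem_image_of_mem _ (mem_range.2 h₂), h⟩
  exact this

open Classical in
/-- the number of the blocks which have not merged -/
noncomputable def cntV (L t : ℕ) (M : ℤ) (W : ℕ) : ℝ :=
  ∑ n ∈ Ico M (M + (W : ℤ)), (if 2 ≤ Vn L t n then (1 : ℝ) else 0)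

theorem cntV_eq (L t : ℕ) (M : ℤ) (W : ℕ) :
    ({n : ℤ | M ≤ n ∧ n < M + W ∧ 2 ≤ Vn L t n}.ncard : ℝ) = cntV L t M W := by
  classical
  rw [Pool.Agent.Q158.Pair.ncard_eq (fun n => 2 ≤ Vn L t n), card_filter]
  unfold cntV
  push_cast
  apply sum_congr rfl
  intro n _
  congr

theorem cntV_mono {L L' : ℕ} (h : L ≤ L') (t : ℕ) (M : ℤ) (W : ℕ) :
    cntV L t M W ≤ cntV L' t M W := by
  classical
  unfold cntV
  apply sum_le_sum
  intro n _
  have h2 := Vn_mono h t n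
  by_cases h1 : 2 ≤ Vn L t n
  · rw [if_pos h1, if_pos (h1.trans h2)]
  · rw [if_neg h1]
    split_ifs <;> norm_num

theorem cntV_nonneg (L t : ℕ) (M : ℤ) (W : ℕ) : 0 ≤ cntV L t M W := by
  classical
  unfold cntV
  exact sum_nonneg fun _ _ => by split_ifs <;> norm_num

/-! ### the low trajectory -/

/-- the ceiling of `x / 2 ^ v` -/
def cx (v : ℕ) (x : ℤ) : ℤ := -((-x) / 2 ^ v)

theorem cx_spec (v : ℕ) (x : ℤ) : ∃ j : ℕ, j < 2 ^ v ∧ x + j = 2 ^ v * cx v x := by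
  have h2 : (0 : ℤ) < 2 ^ v := by positivity
  have h1 := Int.mul_ediv_add_emod (-x) (2 ^ v)
  have h3 := Int.emod_nonneg (-x) h2.ne'
  have h4 := Int.emod_lt_of_pos (-x) h2
  refine ⟨((-x) % 2 ^ v).toNat, ?_, ?_⟩
  · have : (((-x) % 2 ^ v).toNat : ℤ) < ((2 ^ v : ℕ) : ℤ) := by
      push_cast
      omega
    exact_mod_cast this
  · rw [Int.toNat_of_nonneg h3]
    unfold cx
    linear_combination h1

theorem cx_mean (v r : ℕ) (φ : ℕ → ℝ) : EE (v + r) (fun x => φ (oc r (cx v x))) = bE r φ := by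
  rw [EE_split]
  have e1 : (fun x : ℤ => EE r (fun x' => φ (oc r (cx v (2 ^ v * x' + x))))) =
      fun _ => bE r φ := by
    funext x
    rw [← EE_oc r φ 0 (cx v x)]
    congr 1
    funext x'
    have e2 : cx v (2 ^ v * x' + x) = 3 ^ 0 * x' + cx v x := by
      unfold cx
      have e3 : -(2 ^ v * x' + x) = -x + 2 ^ v * (-x') := by ring
      rw [e3, Int.add_mul_ediv_left _ _ (by positivity)]
      ring
    rw [e2]
  rw [e1, EE_const]

theorem cx_oc (v r : ℕ) (x : ℤ) (j : ℕ) (hj : x + j = 2 ^ v * cx v x) :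
    oc (v + r) (x + j) = oc r (cx v x) := by
  rw [oc_add, hj, oc_pow_even, T_pow_even, zero_add]

/-! ### two trajectories of a class -/

theorem class_count {L t u : ℕ} (hut : u ≤ t) {x : ℕ} {j₁ j₂ : ℕ} (h₁ : j₁ < L) (h₂ : j₂ < L)
    (hlev : oc u ((x : ℤ) + j₂) ≤ oc u ((x : ℤ) + j₁)) (M : ℤ) (W : ℕ) {E : ℝ}
    (hE : E ≤ surv (t - u) (oc u ((x : ℤ) + j₁) - oc u ((x : ℤ) + j₂),
      T^[u] ((x : ℤ) + j₁) - 3 ^ (oc u ((x : ℤ) + j₁) - oc u ((x : ℤ) + j₂)) * T^[u] ((x : ℤ) + j₂))) :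
    E * cn u x M W - 2 * 2 ^ (t - u) ≤
      ∑ N ∈ Ico (cl u x M) (cl u x M + cn u x M W),
        (open Classical in if 2 ≤ Vn L t (2 ^ u * N + x) then (1 : ℝ) else 0) := by
  classical
  obtain ⟨a₁, ha₁⟩ : ∃ a, a = oc u ((x : ℤ) + j₁) := ⟨_, rfl⟩
  obtain ⟨a₂, ha₂⟩ : ∃ a, a = oc u ((x : ℤ) + j₂) := ⟨_, rfl⟩
  obtain ⟨b₁, hb₁⟩ : ∃ b, b = T^[u] ((x : ℤ) + j₁) := ⟨_, rfl⟩
  obtain ⟨b₂, hb₂⟩ : ∃ b, b = T^[u] ((x : ℤ) + j₂) := ⟨_, rfl⟩
  rw [← ha₁, ← ha₂, ← hb₁, ← hb₂] at hE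
  rw [← ha₁, ← ha₂] at hlev
  have h3 := meet_count (t - u) (a₁ - a₂, b₁ - 3 ^ (a₁ - a₂) * b₂) (3 ^ a₂) b₂ (three_odd a₂)
    (cl u x M) (cn u x M W)
  rw [Pool.Agent.Q158.Pair.ncard_eq (fun y : ℤ => T^[t - u] (3 ^ a₂ * y + b₂) ≠
    T^[t - u] (3 ^ (a₁ - a₂, b₁ - 3 ^ (a₁ - a₂) * b₂).1 * (3 ^ a₂ * y + b₂) +
      (a₁ - a₂, b₁ - 3 ^ (a₁ - a₂) * b₂).2)), card_filter] at h3
  have h4 := (abs_le.1 h3).1
  push_cast at h4
  have hcn : (0 : ℝ) ≤ cn u x M W := Nat.cast_nonneg _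
  have h5 : E * cn u x M W ≤ surv (t - u) (a₁ - a₂, b₁ - 3 ^ (a₁ - a₂) * b₂) * cn u x M W :=
    mul_le_mul_of_nonneg_right hE hcn
  refine le_trans (by linarith : _ ≤ _) (sum_le_sum (s := Ico (cl u x M) (cl u x M + cn u x M W))
    (f := fun y : ℤ => if T^[t - u] (3 ^ a₂ * y + b₂) ≠
    T^[t - u] (3 ^ (a₁ - a₂) * (3 ^ a₂ * y + b₂) + (b₁ - 3 ^ (a₁ - a₂) * b₂)) then (1 : ℝ) else 0)
    fun N _ => ?_)
  by_cases hN : T^[t - u] (3 ^ a₂ * N + b₂) ≠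
    T^[t - u] (3 ^ (a₁ - a₂) * (3 ^ a₂ * N + b₂) + (b₁ - 3 ^ (a₁ - a₂) * b₂))
  · rw [if_pos hN, if_pos]
    have key : ∀ j : ℕ, T^[t] (2 ^ u * N + x + j) =
        T^[t - u] (3 ^ oc u ((x : ℤ) + j) * N + T^[u] ((x : ℤ) + j)) := by
      intro j
      have e0 : t = (t - u) + u := by omega
      have e1 : 2 ^ u * N + (x : ℤ) + j = ((x : ℤ) + j) + 2 ^ u * N := by ring
      rw [e1]
      nth_rw 1 [e0]
      rw [Function.iterate_add_apply, T_add]
      congr 1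
      ring
    refine Vn_two h₁ h₂ ?_
    rw [key, key, ← ha₁, ← ha₂, ← hb₁, ← hb₂]
    have e2 : (3 : ℤ) ^ (a₁ - a₂) * (3 ^ a₂ * N + b₂) + (b₁ - 3 ^ (a₁ - a₂) * b₂) =
        3 ^ a₁ * N + b₁ := by
      have e3 : (3 : ℤ) ^ a₁ = 3 ^ (a₁ - a₂) * 3 ^ a₂ := by
        rw [← pow_add]
        congr 1
        omega
      rw [e3]
      ring
    rw [e2] at hN
    exact fun h => hN h.symm
  · rw [if_neg hN]
    split_ifs <;> norm_num

theorem rr_half {γ : ℝ} (hγ : IsG γ) : 1 / 2 ≤ rr γ := by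
  have h1 := rr_spec γ
  have l2 := Real.log_two_gt_d9
  have l2' : 0 < Real.log 2 := Real.log_pos (by norm_num)
  have l3 : 0 < Real.log 3 := Real.log_pos (by norm_num)
  have h5 : 5 * Real.log 3 ≤ 8 * Real.log 2 := by
    have e1 : Real.log ((3 : ℝ) ^ 5) = 5 * Real.log 3 := by
      rw [Real.log_pow]
      norm_num
    have e2 : Real.log ((2 : ℝ) ^ 8) = 8 * Real.log 2 := by
      rw [Real.log_pow]
      norm_num
    rw [← e1, ← e2]
    exact Real.log_le_log (by norm_num) (by norm_num)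
  have h6 : 1 / γ ≤ 1 / 41 := by
    apply one_div_le_one_div_of_le (by norm_num)
    linarith [hγ.1]
  by_contra hc
  push Not at hc
  have h7 : rr γ * Real.log 3 ≤ 1 / 2 * Real.log 3 := mul_le_mul_of_nonneg_right hc.le l3.le
  linarith

theorem DD_pos {γ : ℝ} (hγ : IsG γ) : 0 < DD γ := by
  unfold DD
  have h1 := rr_half hγ
  have l2 : 0 < Real.log 2 := Real.log_pos (by norm_num)
  have h2 : 0 < 1 / (2 * Real.log 2) := by positivity
  have h3 : 0 ≤ γ * (rr γ - 1 / 2) := mul_nonneg (by linarith [hγ.1]) (by linarith)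
  linarith

/-- the sum over the residue classes -/
theorem assemble {t u W K : ℕ} (hut : u ≤ t) (hK : 1 ≤ K) (hW : K * 2 ^ t ≤ W) {E β : ℝ}
    (hE1 : E ≤ 1) (F : ℤ → ℝ) (hF0 : 0 ≤ EE u F) (hF : EE u F ≤ β) (S : ℕ → ℝ)
    (hS : ∀ x ∈ range (2 ^ u), E * (W / 2 ^ u) * (1 - F x) - 3 * 2 ^ (t - u) ≤ S x) :
    (E - β - 3 / K) * W ≤ ∑ x ∈ range (2 ^ u), S x := by
  have h2u : (0 : ℝ) < 2 ^ u := by positivity
  have hK0 : (0 : ℝ) < K := by exact_mod_cast hK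
  have hW' : (K : ℝ) * 2 ^ t ≤ W := by exact_mod_cast hW
  have hW0 : (0 : ℝ) ≤ W := Nat.cast_nonneg W
  refine le_trans ?_ (sum_le_sum hS)
  have e1 : ∑ x ∈ range (2 ^ u), (E * (W / 2 ^ u) * (1 - F x) - 3 * 2 ^ (t - u)) =
      E * W * (1 - EE u F) - 3 * 2 ^ t := by
    rw [sum_sub_distrib, ← mul_sum, sum_sub_distrib]
    simp only [sum_const, card_range, nsmul_eq_mul, mul_one]
    unfold EE
    have e2 : (2 : ℝ) ^ t = 2 ^ u * 2 ^ (t - u) := by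
      rw [← pow_add]
      congr 1
      omega
    rw [e2]
    push_cast
    field_simp
  rw [e1]
  have h1 : E * W * EE u F ≤ β * W := by
    calc E * W * EE u F ≤ 1 * W * β := by gcongr
      _ = β * W := by ring
  have h2 : 3 * (2 : ℝ) ^ t ≤ 3 / K * W := by
    rw [div_mul_eq_mul_div, le_div_iff₀ hK0]
    linarith
  nlinarith

/-- the middle range -/
theorem middle (htop : S_TopAll) {γ : ℝ} (hγ : IsG γ) {κ M₀ ε : ℝ} (hκ : 0 < κ) (hM : 0 < M₀)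
    (hε : 0 < ε) : ∃ t₀ K : ℕ, ∀ t : ℕ, t₀ ≤ t → ∀ L : ℕ, 1 ≤ L → κ * √t ≤ Real.log L →
      Real.log L ≤ M₀ * √t → ∀ (M : ℤ) (W : ℕ), K * 2 ^ t ≤ W →
      (Erf (DD γ * Real.log L / √t) - ε) * W ≤ cntV L t M W := by
  classical
  have g0 : 41 < γ := by linarith [hγ.1]
  have gpos : 0 < γ := by linarith
  have hr := rr_half hγ
  have l2 : 0 < Real.log 2 := Real.log_pos (by norm_num)
  have l2a := Real.log_two_gt_d9
  have hD := DD_pos hγ
  obtain ⟨D, hDd⟩ : ∃ D, D = DD γ := ⟨_, rfl⟩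
  obtain ⟨C', hC'd⟩ : ∃ C', C' = γ * (rr γ - 1 / 2) + γ + 2 := ⟨_, rfl⟩
  rw [← hDd] at hD ⊢
  have hC' : 0 < C' := by
    have : 0 ≤ γ * (rr γ - 1 / 2) := mul_nonneg gpos.le (by linarith)
    linarith
  -- the small constant
  obtain ⟨ε₁, hε₁, hε₁a, hε₁b, hε₁c⟩ : ∃ ε₁ : ℝ, 0 < ε₁ ∧ ε₁ ≤ 1 / 2 ∧ C' * ε₁ ≤ D ∧
      (3 * C' * M₀ + 1) * ε₁ ≤ ε / 2 := by
    have h3 : 0 < 3 * C' * M₀ + 1 := by positivity
    refine ⟨min (1 / 2) (min (D / C') (ε / 2 / (3 * C' * M₀ + 1))), by positivity,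
      min_le_left _ _, ?_, ?_⟩
    · have := (min_le_right (1 / 2) (min (D / C') (ε / 2 / (3 * C' * M₀ + 1)))).trans
        (min_le_left _ _)
      calc C' * _ ≤ C' * (D / C') := mul_le_mul_of_nonneg_left this hC'.le
        _ = D := by field_simp
    · have := (min_le_right (1 / 2) (min (D / C') (ε / 2 / (3 * C' * M₀ + 1)))).trans
        (min_le_right _ _)
      calc (3 * C' * M₀ + 1) * _ ≤ (3 * C' * M₀ + 1) * (ε / 2 / (3 * C' * M₀ + 1)) :=
            mul_le_mul_of_nonneg_left this h3.le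
        _ = ε / 2 := by field_simp
  obtain ⟨L₀, hL₀⟩ := htop γ hγ ε₁ hε₁
  obtain ⟨r₀, hr₀1, hr₀⟩ := surv_lower hε₁
  obtain ⟨K, hK1, hK⟩ : ∃ K : ℕ, 1 ≤ K ∧ 3 / (K : ℝ) ≤ ε / 4 := by
    obtain ⟨n, hn⟩ := exists_nat_ge (3 / (ε / 4))
    refine ⟨n + 1, by omega, ?_⟩
    rw [div_le_iff₀ (by positivity)]
    rw [div_le_iff₀ (by positivity)] at hn
    push_cast
    nlinarith
  have hR1 : 0 ≤ Real.log (L₀ + 1) / κ :=
    div_nonneg (Real.log_nonneg (by linarith [(Nat.cast_nonneg L₀ : (0 : ℝ) ≤ L₀)])) hκ.le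
  have hR2 : 0 ≤ 1 / (2 * ε₁ * κ) := by positivity
  have hR3 : 0 ≤ γ * |Real.log (4 / ε)| / (2 * ε₁ ^ 2 * κ) := by positivity
  have hR4 : 0 ≤ 2 * γ * M₀ := by positivity
  have hR5 : (0 : ℝ) ≤ 2 * r₀ + 1 := by positivity
  obtain ⟨R, hR⟩ : ∃ R : ℝ, R = Real.log (L₀ + 1) / κ + 1 / (2 * ε₁ * κ) +
      γ * |Real.log (4 / ε)| / (2 * ε₁ ^ 2 * κ) + 2 * γ * M₀ + (2 * r₀ + 1) := ⟨_, rfl⟩
  refine ⟨⌈R ^ 2⌉₊, K, fun t ht L hL hl1 hl2 M W hW => ?_⟩
  have hst : R ≤ √t := by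
    apply Real.le_sqrt_of_sq_le
    exact (Nat.le_ceil _).trans (by exact_mod_cast ht)
  have hst0 : 0 ≤ √(t : ℝ) := Real.sqrt_nonneg _
  have hss : √(t : ℝ) * √(t : ℝ) = t := Real.mul_self_sqrt (Nat.cast_nonneg t)
  obtain ⟨ℓ, hℓ⟩ : ∃ ℓ, ℓ = Real.log L := ⟨_, rfl⟩
  rw [← hℓ] at hl1 hl2 ⊢
  have hs1 : (1 : ℝ) ≤ √t := by
    have : (0 : ℝ) ≤ r₀ := Nat.cast_nonneg r₀
    linarith
  have hℓ0 : 0 < ℓ := lt_of_lt_of_le (by positivity) hl1
  have hLpos : (0 : ℝ) < L := by exact_mod_cast hL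
  -- consequences of the size of t
  have c1 : L₀ ≤ L := by
    have h1 : Real.log (L₀ + 1) ≤ ℓ := by
      have h2 : Real.log (L₀ + 1) / κ ≤ √t := by linarith
      rw [div_le_iff₀ hκ] at h2
      linarith
    rw [hℓ, Real.log_le_log_iff (by positivity) hLpos] at h1
    have h2 : ((L₀ + 1 : ℕ) : ℝ) ≤ L := by
      push_cast
      exact h1
    have h3 : L₀ + 1 ≤ L := by exact_mod_cast h2
    omega
  have c2 : 1 / 2 ≤ ε₁ * ℓ := by
    have h2 : 1 / (2 * ε₁ * κ) ≤ √t := by linarith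
    rw [div_le_iff₀ (by positivity)] at h2
    have h3 : ε₁ * (κ * √t) ≤ ε₁ * ℓ := mul_le_mul_of_nonneg_left hl1 hε₁.le
    linarith
  have c3 : Real.exp (-(2 * ε₁ ^ 2 * ℓ / γ)) ≤ ε / 4 := by
    have h2 : γ * |Real.log (4 / ε)| / (2 * ε₁ ^ 2 * κ) ≤ √t := by linarith
    rw [div_le_iff₀ (by positivity)] at h2
    have h3 : 2 * ε₁ ^ 2 * (κ * √t) ≤ 2 * ε₁ ^ 2 * ℓ :=
      mul_le_mul_of_nonneg_left hl1 (by positivity)
    have h4 : |Real.log (4 / ε)| ≤ 2 * ε₁ ^ 2 * ℓ / γ := by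
      rw [le_div_iff₀ gpos]
      linarith
    have h5 : Real.log (4 / ε) ≤ 2 * ε₁ ^ 2 * ℓ / γ := (le_abs_self _).trans h4
    have h6 : Real.exp (-(2 * ε₁ ^ 2 * ℓ / γ)) ≤ Real.exp (-Real.log (4 / ε)) :=
      Real.exp_le_exp.2 (by linarith)
    refine h6.trans (le_of_eq ?_)
    rw [Real.exp_neg, Real.exp_log (by positivity), inv_div]
  have c4 : γ * ℓ ≤ t / 2 := by
    have h2 : 2 * γ * M₀ ≤ √t := by
      have : (0 : ℝ) ≤ r₀ := Nat.cast_nonneg r₀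
      linarith
    have h3 : 2 * γ * M₀ * √t ≤ √t * √t := mul_le_mul_of_nonneg_right h2 hst0
    have h4 : γ * ℓ ≤ γ * (M₀ * √t) := mul_le_mul_of_nonneg_left hl2 gpos.le
    linarith
  have c5 : (2 : ℝ) * r₀ ≤ t := by
    have h2 : 2 * (r₀ : ℝ) ≤ √t := by linarith
    nlinarith
  -- the time u
  obtain ⟨u, hu1, hu2, hu3⟩ := hL₀ L c1
  rw [← hℓ] at hu1 hu2
  have hut' : (u : ℝ) ≤ t / 2 := hu2.trans c4
  have hut : u ≤ t := by
    have : (u : ℝ) ≤ t := hut'.trans (by linarith [(Nat.cast_nonneg t : (0 : ℝ) ≤ t)])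
    exact_mod_cast this
  have hr0t : r₀ ≤ t - u := by
    have : (r₀ : ℝ) ≤ ((t - u : ℕ) : ℝ) := by
      rw [Nat.cast_sub hut]
      linarith
    exact_mod_cast this
  have htu0 : (0 : ℝ) < ((t - u : ℕ) : ℝ) := by
    exact_mod_cast (by omega : 0 < t - u)
  -- the exponent v
  obtain ⟨v, hv⟩ : ∃ v, v = Nat.log 2 L := ⟨_, rfl⟩
  have hv1 : 2 ^ v ≤ L := by
    rw [hv]
    exact Nat.pow_log_le_self 2 (by omega)
  have hv2 : L < 2 ^ (v + 1) := by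
    rw [hv]
    exact Nat.lt_pow_succ_log_self (by norm_num) L
  have hv3 : (v : ℝ) * Real.log 2 ≤ ℓ := by
    rw [hℓ, ← Real.log_pow]
    exact Real.log_le_log (by positivity) (by exact_mod_cast hv1)
  have hv4 : ℓ ≤ ((v : ℝ) + 1) * Real.log 2 := by
    have h1 : Real.log L ≤ Real.log ((2 : ℝ) ^ (v + 1)) :=
      Real.log_le_log hLpos (by exact_mod_cast hv2.le)
    rw [Real.log_pow] at h1
    push_cast at h1
    rw [hℓ]
    exact h1
  have hvu : v ≤ u := by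
    have h1 : (v : ℝ) * (1 / 2) ≤ v * Real.log 2 :=
      mul_le_mul_of_nonneg_left (by linarith) (Nat.cast_nonneg v)
    have h2 : (1 / 2 : ℝ) * (γ * ℓ) ≤ (1 - ε₁) * (γ * ℓ) :=
      mul_le_mul_of_nonneg_right (by linarith) (by positivity)
    have h3 : 41 * ℓ ≤ γ * ℓ := mul_le_mul_of_nonneg_right g0.le hℓ0.le
    have : (v : ℝ) ≤ u := by linarith
    exact_mod_cast this
  have hvr : v + (u - v) = u := by omega
  -- E
  obtain ⟨E, hE⟩ : ∃ E, E = Erf ((D - C' * ε₁) * ℓ / √t) - ε₁ := ⟨_, rfl⟩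
  have hE1 : E ≤ 1 := by
    have := Erf_le_one ((D - C' * ε₁) * ℓ / √t)
    linarith
  have hEE : Erf (D * ℓ / √t) - ε ≤ E - ε / 2 := by
    have h1 : (D - C' * ε₁) * ℓ / √t ≤ D * ℓ / √t := by
      apply div_le_div_of_nonneg_right _ hst0
      apply mul_le_mul_of_nonneg_right _ hℓ0.le
      have : 0 < C' * ε₁ := by positivity
      linarith
    have h2 := Erf_lip h1
    have h3 : D * ℓ / √t - (D - C' * ε₁) * ℓ / √t = C' * ε₁ * (ℓ / √t) := by ring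
    have h4 : ℓ / √t ≤ M₀ := by
      rw [div_le_iff₀ (by linarith)]
      exact hl2
    have h5 : C' * ε₁ * (ℓ / √t) ≤ C' * ε₁ * M₀ := mul_le_mul_of_nonneg_left h4 (by positivity)
    rw [h3] at h2
    rw [hE]
    linarith
  rcases lt_or_ge E 0 with hE0 | hE0
  · have h1 : (Erf (D * ℓ / √t) - ε) * W ≤ 0 :=
      mul_nonpos_of_nonpos_of_nonneg (by linarith) (Nat.cast_nonneg W)
    exact h1.trans (cntV_nonneg L t M W)
  have hW0 : (0 : ℝ) ≤ W := Nat.cast_nonneg W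
  -- the exceptional function
  obtain ⟨s, hs⟩ : ∃ s, s = 4 * ε₁ / γ := ⟨_, rfl⟩
  have hs0 : 0 < s := by
    rw [hs]
    positivity
  obtain ⟨φ, hφ⟩ : ∃ φ : ℕ → ℝ, φ = fun m : ℕ =>
    Real.exp (-s * (((u - v : ℕ) : ℝ) / 2 - -(ε₁ * ℓ) - m)) := ⟨_, rfl⟩
  have hφ0 : ∀ m, 0 ≤ φ m := fun m => by
    rw [hφ]
    exact (Real.exp_pos _).le
  have hmean : EE u (fun x => φ (oc (u - v) (cx v x))) = bE (u - v) φ := by
    have := cx_mean v (u - v) φ
    rwa [hvr] at this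
  have hF0 : 0 ≤ EE u (fun x => φ (oc (u - v) (cx v x))) :=
    Pool.Agent.Q74.KP.EE_nonneg u fun x => hφ0 _
  have hF1 : EE u (fun x => φ (oc (u - v) (cx v x))) ≤ ε / 4 := by
    rw [hmean]
    refine le_trans ?_ c3
    rw [hφ]
    refine (bE_exp (u - v) (-s) (-(ε₁ * ℓ))).trans (Real.exp_le_exp.2 ?_)
    have h2 : ((u - v : ℕ) : ℝ) ≤ γ * ℓ := by
      refine le_trans ?_ hu2
      exact_mod_cast Nat.sub_le u v
    have h3 : s ^ 2 * ((u - v : ℕ) : ℝ) ≤ s ^ 2 * (γ * ℓ) :=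
      mul_le_mul_of_nonneg_left h2 (by positivity)
    have h4 : -(s * (ε₁ * ℓ)) + s ^ 2 * (γ * ℓ) / 8 = -(2 * ε₁ ^ 2 * ℓ / γ) := by
      rw [hs]
      field_simp
      ring
    have h5 : -(-s * -(ε₁ * ℓ)) + (-s) ^ 2 * ((u - v : ℕ) : ℝ) / 8 =
        -(s * (ε₁ * ℓ)) + s ^ 2 * ((u - v : ℕ) : ℝ) / 8 := by ring
    rw [h5]
    linarith
  -- the classes
  have hclass : ∀ x ∈ range (2 ^ u), E * (W / 2 ^ u) * (1 - φ (oc (u - v) (cx v (x : ℤ)))) -
      3 * 2 ^ (t - u) ≤ ∑ N ∈ Ico (cl u x M) (cl u x M + cn u x M W),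
        (if 2 ≤ Vn L t (2 ^ u * N + x) then (1 : ℝ) else 0) := by
    intro x _
    have hw0 : (0 : ℝ) ≤ E * (W / 2 ^ u) := by positivity
    have hS0 : (0 : ℝ) ≤ ∑ N ∈ Ico (cl u x M) (cl u x M + cn u x M W),
        (if 2 ≤ Vn L t (2 ^ u * N + x) then (1 : ℝ) else 0) :=
      sum_nonneg fun _ _ => by split_ifs <;> norm_num
    have h2p : (0 : ℝ) < 2 ^ (t - u) := by positivity
    rcases lt_or_ge (((u - v : ℕ) : ℝ) / 2 + ε₁ * ℓ) (oc (u - v) (cx v (x : ℤ))) with hb | hb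
    · have h1 : 1 ≤ φ (oc (u - v) (cx v (x : ℤ))) := by
        rw [hφ]
        apply Real.one_le_exp
        have : 0 ≤ s * ((oc (u - v) (cx v (x : ℤ)) : ℝ) - (((u - v : ℕ) : ℝ) / 2 + ε₁ * ℓ)) :=
          mul_nonneg hs0.le (by linarith)
        linarith
      have h3 : E * (W / 2 ^ u) * (1 - φ (oc (u - v) (cx v (x : ℤ)))) ≤ 0 :=
        mul_nonpos_of_nonneg_of_nonpos hw0 (by linarith)
      linarith
    · obtain ⟨j₁, hj₁, hlev1⟩ := hu3 (x : ℤ)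
      obtain ⟨j₂, hj₂, hj₂e⟩ := cx_spec v (x : ℤ)
      have hj₂L : j₂ < L := lt_of_lt_of_le hj₂ hv1
      have hoc2 : oc u ((x : ℤ) + j₂) = oc (u - v) (cx v (x : ℤ)) := by
        have := cx_oc v (u - v) (x : ℤ) j₂ hj₂e
        rwa [hvr] at this
      have hlev2 : (oc u ((x : ℤ) + j₂) : ℝ) ≤ ((u : ℝ) - v) / 2 + ε₁ * ℓ := by
        rw [hoc2]
        rw [Nat.cast_sub hvu] at hb
        exact hb
      have hdiff : (D - C' * ε₁) * ℓ ≤ (oc u ((x : ℤ) + j₁) : ℝ) - oc u ((x : ℤ) + j₂) := by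
        have e1 : (rr γ - 1 / 2) * ((1 - ε₁) * (γ * ℓ)) ≤ (rr γ - 1 / 2) * u :=
          mul_le_mul_of_nonneg_left hu1 (by linarith)
        have e2 : ε₁ * u ≤ ε₁ * (γ * ℓ) := mul_le_mul_of_nonneg_left hu2 hε₁.le
        have e3 : ℓ / (2 * Real.log 2) ≤ ((v : ℝ) + 1) / 2 := by
          rw [div_le_iff₀ (by positivity)]
          linarith
        have e4 : D * ℓ = (rr γ - 1 / 2) * (γ * ℓ) + ℓ / (2 * Real.log 2) := by
          rw [hDd]
          unfold DD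
          field_simp
        have e5 : C' * ε₁ * ℓ = (rr γ - 1 / 2) * (ε₁ * (γ * ℓ)) + ε₁ * (γ * ℓ) + 2 * (ε₁ * ℓ) := by
          rw [hC'd]
          ring
        rw [sub_mul, e4, e5]
        linarith
      have hdiff0 : 0 ≤ (D - C' * ε₁) * ℓ := mul_nonneg (by linarith) hℓ0.le
      have hle : oc u ((x : ℤ) + j₂) ≤ oc u ((x : ℤ) + j₁) := by
        have : (oc u ((x : ℤ) + j₂) : ℝ) ≤ oc u ((x : ℤ) + j₁) := by linarith
        exact_mod_cast this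
      have hsurv : E ≤ surv (t - u) (oc u ((x : ℤ) + j₁) - oc u ((x : ℤ) + j₂),
          T^[u] ((x : ℤ) + j₁) - 3 ^ (oc u ((x : ℤ) + j₁) - oc u ((x : ℤ) + j₂)) *
            T^[u] ((x : ℤ) + j₂)) := by
        refine le_trans ?_ (hr₀ (t - u) hr0t _)
        rw [lim_eq, hE]
        have h1 : (D - C' * ε₁) * ℓ / √t ≤
            ((oc u ((x : ℤ) + j₁) - oc u ((x : ℤ) + j₂) : ℕ) : ℝ) / √((t - u : ℕ) : ℝ) := by
          rw [Nat.cast_sub hle]
          have h3 : √((t - u : ℕ) : ℝ) ≤ √(t : ℝ) :=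
            Real.sqrt_le_sqrt (by exact_mod_cast Nat.sub_le t u)
          have h4 : 0 < √((t - u : ℕ) : ℝ) := Real.sqrt_pos.2 htu0
          calc (D - C' * ε₁) * ℓ / √t ≤ (D - C' * ε₁) * ℓ / √((t - u : ℕ) : ℝ) :=
                div_le_div_of_nonneg_left hdiff0 h4 h3
            _ ≤ _ := div_le_div_of_nonneg_right hdiff h4.le
        have h2 := Erf_mono h1
        linarith
      have hcc := class_count hut hj₁ hj₂L hle M W hsurv
      have hcn : (W : ℝ) / 2 ^ u ≤ (cn u x M W : ℝ) + 1 := by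
        have h1 := cn_ge u x M W
        rw [div_le_iff₀ (by positivity)]
        have h3 : ((W : ℤ) : ℝ) < ((2 ^ u * ((cn u x M W : ℤ) + 1) : ℤ) : ℝ) := by exact_mod_cast h1
        push_cast at h3
        linarith
      have h6 : E * (W / 2 ^ u) ≤ E * cn u x M W + 2 ^ (t - u) := by
        have h7 : E * (W / 2 ^ u) ≤ E * ((cn u x M W : ℝ) + 1) :=
          mul_le_mul_of_nonneg_left hcn hE0
        have h8 : (1 : ℝ) ≤ 2 ^ (t - u) := one_le_pow₀ (by norm_num)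
        linarith
      have h9 : E * (W / 2 ^ u) * (1 - φ (oc (u - v) (cx v (x : ℤ)))) ≤ E * (W / 2 ^ u) :=
        mul_le_of_le_one_right hw0 (by linarith [hφ0 (oc (u - v) (cx v (x : ℤ)))])
      linarith
  have hsum := assemble hut hK1 hW hE1 (fun x => φ (oc (u - v) (cx v x))) hF0 hF1 _ hclass
  have e1 : cntV L t M W = ∑ x ∈ range (2 ^ u), ∑ N ∈ Ico (cl u x M) (cl u x M + cn u x M W),
        (if 2 ≤ Vn L t (2 ^ u * N + x) then (1 : ℝ) else 0) := by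
    unfold cntV
    rw [sum_classes u M W]
  rw [e1]
  refine le_trans ?_ hsum
  exact mul_le_mul_of_nonneg_right (by linarith) hW0

/-- **Lo** -/
theorem lo (htop : S_TopAll) : S_Lo := by
  classical
  intro γ hγ ε hε
  have hD := DD_pos hγ
  obtain ⟨R₀, hR₀, hR₀E⟩ := Erf_big (by positivity : 0 < ε / 2)
  -- the constants
  obtain ⟨κ, hκd⟩ : ∃ κ : ℝ, κ = ε / (3 * DD γ) := ⟨_, rfl⟩
  have hκ : 0 < κ := by
    rw [hκd]
    positivity
  obtain ⟨M₀, hMd⟩ : ∃ M₀ : ℝ, M₀ = R₀ / DD γ + κ + 1 := ⟨_, rfl⟩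
  have hM : 0 < M₀ := by
    rw [hMd]
    positivity
  obtain ⟨t₀, K, h⟩ := middle htop hγ hκ hM (by positivity : 0 < ε / 2)
  refine ⟨max t₀ 1, K, fun t ht L hL M W hW => ?_⟩
  have ht0 : t₀ ≤ t := (le_max_left _ _).trans ht
  have ht1 : 1 ≤ t := (le_max_right _ _).trans ht
  rw [cntV_eq]
  have hst : (1 : ℝ) ≤ √t := by
    rw [Real.one_le_sqrt]
    exact_mod_cast ht1
  have hst0 : (0 : ℝ) < √t := by linarith
  have hLpos : (0 : ℝ) < L := by exact_mod_cast hL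
  have hl0 : 0 ≤ Real.log L := Real.log_nonneg (by exact_mod_cast hL)
  have hW0 : (0 : ℝ) ≤ W := Nat.cast_nonneg W
  rcases lt_or_ge (Real.log L) (κ * √t) with h1 | h1
  · -- few levels
    have h2 : Erf (DD γ * Real.log L / √t) ≤ ε := by
      have h3 : (0 : ℝ) ≤ DD γ * Real.log L / √t := by positivity
      have h4 := Erf_lip h3
      rw [Erf_zero] at h4
      have h5 : DD γ * Real.log L / √t ≤ ε / 3 := by
        rw [div_le_iff₀ hst0]
        have h6 : DD γ * Real.log L ≤ DD γ * (κ * √t) :=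
          mul_le_mul_of_nonneg_left h1.le hD.le
        have h7 : DD γ * (κ * √t) = ε / 3 * √t := by
          rw [hκd]
          field_simp
        linarith
      linarith
    have h3 : (Erf (DD γ * Real.log L / √t) - ε) * W ≤ 0 :=
      mul_nonpos_of_nonpos_of_nonneg (by linarith) hW0
    exact h3.trans (cntV_nonneg L t M W)
  rcases le_or_gt (Real.log L) (M₀ * √t) with h2 | h2
  · refine le_trans ?_ (h t ht0 L hL h1 h2 M W hW)
    exact mul_le_mul_of_nonneg_right (by linarith) hW0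
  · -- long blocks
    obtain ⟨L', hL'⟩ : ∃ L' : ℕ, L' = ⌊Real.exp (M₀ * √t)⌋₊ := ⟨_, rfl⟩
    have hexp1 : (1 : ℝ) ≤ Real.exp (M₀ * √t) := Real.one_le_exp (by positivity)
    have hL'1 : 1 ≤ L' := by
      rw [hL']
      exact Nat.le_floor (by exact_mod_cast hexp1)
    have hL'2 : (L' : ℝ) ≤ Real.exp (M₀ * √t) := by
      rw [hL']
      exact Nat.floor_le (by positivity)
    have hL'3 : Real.exp (M₀ * √t) < L' + 1 := by
      rw [hL']
      exact Nat.lt_floor_add_one _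
    have hL'pos : (0 : ℝ) < L' := by exact_mod_cast hL'1
    have hLL : L' ≤ L := by
      have : (L' : ℝ) ≤ L := by
        refine hL'2.trans ?_
        have h3 := Real.exp_le_exp.2 h2.le
        rwa [Real.exp_log hLpos] at h3
      exact_mod_cast this
    have hlog1 : Real.log L' ≤ M₀ * √t := by
      have := Real.log_le_log hL'pos hL'2
      rwa [Real.log_exp] at this
    have hlog2 : M₀ * √t - 1 ≤ Real.log L' := by
      have h3 : Real.exp (M₀ * √t) ≤ 2 * L' := by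
        have : (1 : ℝ) ≤ L' := by exact_mod_cast hL'1
        linarith
      have h4 := Real.log_le_log (Real.exp_pos _) h3
      rw [Real.log_exp, Real.log_mul (by norm_num) hL'pos.ne'] at h4
      have h5 := Real.log_two_lt_d9
      linarith
    have hlog3 : (R₀ / DD γ + κ) * √t ≤ Real.log L' := by
      have : M₀ * √t = (R₀ / DD γ + κ) * √t + √t := by
        rw [hMd]
        ring
      linarith
    have hR₀D : 0 < R₀ / DD γ := by positivity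
    have h3 := h t ht0 L' hL'1 (by
      refine le_trans ?_ hlog3
      exact mul_le_mul_of_nonneg_right (by linarith) hst0.le) hlog1 M W hW
    have h4 : 1 - ε / 2 ≤ Erf (DD γ * Real.log L' / √t) := by
      refine hR₀E.trans (Erf_mono ?_)
      rw [le_div_iff₀ hst0]
      have h5 : DD γ * ((R₀ / DD γ + κ) * √t) ≤ DD γ * Real.log L' :=
        mul_le_mul_of_nonneg_left hlog3 hD.le
      have h6 : DD γ * ((R₀ / DD γ + κ) * √t) = R₀ * √t + DD γ * κ * √t := by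
        field_simp
      have h7 : 0 < DD γ * κ * √t := by positivity
      linarith
    have h5 := Erf_le_one (DD γ * Real.log L / √t)
    refine le_trans ?_ (h3.trans (cntV_mono hLL t M W))
    exact mul_le_mul_of_nonneg_right (by linarith) hW0

end Pool.Agent.Q38.BT
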